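import Mathlib

namespace Pool.Agent.Results.MP_9de7c4_an.Comp

open Polynomial Filter Topology ComplexConjugate

/-- `p` is a trim self-inversive polynomial of darga `n`. -/
def Trim (p : ℂ[X]) (n : ℕ) : Prop :=
  p ≠ 0 ∧ p.natTrailingDegree + p.natDegree = n ∧ (∀ j ≤ n, p.coeff j = conj (p.coeff (n - j))) ∧
    p.natDegree < n

/-- The set of `α > 0` for which `α (x ^ n + 1) + p` is circle rooted. -/
def S (p : ℂ[X]) (n : ℕ) : Set ℝ :=
  {α | 0 < α ∧ ∀ z : ℂ, (C (α : ℂ) * (X ^ n + 1) + p).IsRoot z → ‖z‖ = 1}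

/-- The number of connected components of a set of reals. -/
noncomputable def comps (A : Set ℝ) : ℕ∞ := ((fun a => connectedComponentIn A a) '' A).encard

/-- All complex roots lie in `[-1, 1]`. -/
def RR (Q : ℝ[X]) : Prop := ∀ w : ℂ, aeval w Q = 0 → ∃ y : ℝ, |y| ≤ 1 ∧ w = y

lemma small (W : Finset ℝ) (hW : ∀ z ∈ W, |z| < 1) : ∀ᶠ δ in 𝓝[>] (0 : ℝ),
    (∀ z ∈ W, |z| + δ < 1) ∧ ∀ z ∈ W, ∀ z' ∈ W, z < z' → z + 2 * δ < z' := by
  refine Eventually.filter_mono nhdsWithin_le_nhds (Eventually.and ?_ ?_)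
  · exact (eventually_all_finset _).2 fun z hz => ContinuousAt.eventually_lt (by fun_prop)
      (by fun_prop) (by simpa using hW z hz)
  · refine (eventually_all_finset _).2 fun z _ => (eventually_all_finset _).2 fun z' _ => ?_
    by_cases h : z < z'
    · exact (ContinuousAt.eventually_lt (f := fun δ => z + 2 * δ) (g := fun _ => z') (by fun_prop)
        (by fun_prop) (by simpa using h)).mono fun _ h _ => h
    · simp [h]

lemma persist (W : Finset ℝ) (hW : ∀ z ∈ W, |z| < 1) {a : ℝ} (ha : a ≠ 0) (q : ℝ[X])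
    (hq : q.degree < W.card) : ∀ᶠ ε in 𝓝 (0 : ℝ), RR (C a * ∏ z ∈ W, (X - C z) + C ε * q) := by
  classical
  set Q := C a * ∏ z ∈ W, (X - C z) with hQ
  have sg : ∀ᶠ δ in 𝓝[>] (0 : ℝ), ∀ z ∈ W, Q.eval (z - δ) * Q.eval (z + δ) < 0 := by
    refine (eventually_all_finset _).2 fun z hz => ?_
    set G := ∏ u ∈ W.erase z, (X - C u)
    have G0 : G.eval z ≠ 0 := by
      simp only [G, eval_prod, eval_sub, eval_X, eval_C, Finset.prod_ne_zero_iff, Finset.mem_erase]
      exact fun u hu => sub_ne_zero.2 hu.1.symm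
    have : ∀ᶠ δ in 𝓝 (0 : ℝ), 0 < G.eval (z - δ) * G.eval (z + δ) :=
      ContinuousAt.eventually_lt (f := fun _ => 0) (by fun_prop) (by fun_prop)
        (by simpa using G0)
    filter_upwards [this.filter_mono nhdsWithin_le_nhds, self_mem_nhdsWithin] with δ h1 h2
    rw [hQ, ← Finset.mul_prod_erase _ _ hz]
    simp only [eval_mul, eval_sub, eval_X, eval_C]
    have h3 : 0 < a ^ 2 * δ ^ 2 := mul_pos (by positivity) (pow_pos h2 2)
    nlinarith [mul_pos h3 h1]
  obtain ⟨δ, ⟨⟨h1, h2⟩, h3⟩, h4⟩ := (((small W hW).and sg).and self_mem_nhdsWithin).exists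
  replace h4 : 0 < δ := h4
  have ev : ∀ᶠ ε in 𝓝 (0 : ℝ), ∀ z ∈ W,
      (Q + C ε * q).eval (z - δ) * (Q + C ε * q).eval (z + δ) < 0 :=
    (eventually_all_finset _).2 fun z hz => ContinuousAt.eventually_lt (g := fun _ => 0)
      (by simp only [eval_add, eval_mul, eval_C]; fun_prop) (by fun_prop) (by simpa using h3 z hz)
  filter_upwards [ev] with ε hε w hw
  have iv : ∀ z ∈ W, ∃ r, z - δ ≤ r ∧ r ≤ z + δ ∧ (Q + C ε * q).eval r = 0 := fun z hz => by
    obtain ⟨r, r1, r2⟩ := intermediate_value_uIcc (a := z - δ) (b := z + δ)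
      (Q + C ε * q).continuous.continuousOn (show (0 : ℝ) ∈ _ from Set.mem_uIcc.2
        ((mul_neg_iff.1 (hε z hz)).symm.imp (fun h => ⟨h.1.le, h.2.le⟩) fun h => ⟨h.2.le, h.1.le⟩))
    rw [Set.uIcc_of_le (by linarith)] at r1
    exact ⟨r, r1.1, r1.2, r2⟩
  choose! ρ r1 r2 r3 using iv
  have inj : Set.InjOn ρ W := fun z hz z' hz' h => by
    rcases lt_trichotomy z z' with c | c | c
    · linarith [h2 z hz z' hz' c, r2 z hz, r1 z' hz']
    · exact c
    · linarith [h2 z' hz' z hz c, r2 z' hz', r1 z hz]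
  have d1 : Q.degree = W.card := by
    rw [hQ, degree_C_mul ha, degree_prod]
    simp
  have d2 : (Q + C ε * q).degree = W.card := by
    rw [degree_add_eq_left_of_degree_lt, d1]
    rw [d1, C_mul']
    exact (degree_smul_le _ _).trans_lt hq
  have hr := roots_eq_of_degree_eq_card (p := Q + C ε * q) (S := W.image ρ)
    (by simpa using r3) (by rw [Finset.card_image_of_injOn inj, d2])
  have hm := roots_map_of_injective_of_card_eq_natDegree (p := Q + C ε * q)
    (algebraMap ℝ ℂ).injective (by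
      rw [hr, natDegree_eq_of_degree_eq_some d2]
      exact Finset.card_image_of_injOn inj)
  have : w ∈ ((Q + C ε * q).map (algebraMap ℝ ℂ)).roots :=
    (mem_roots_map (by rintro h; simp [h] at d2)).2 hw
  rw [← hm, hr] at this
  obtain ⟨y, hy, rfl⟩ := Multiset.mem_map.1 this
  obtain ⟨z, hz, rfl⟩ := Finset.mem_image.1 hy
  refine ⟨ρ z, abs_le.2 ⟨?_, ?_⟩, rfl⟩
  · linarith [h1 z hz, r1 z hz, neg_abs_le z]
  · linarith [h1 z hz, r2 z hz, le_abs_self z]

lemma lag {Q : ℝ[X]} (h : RR Q) (y : ℝ) :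
    0 ≤ Q.derivative.eval y ^ 2 - Q.eval y * Q.derivative.derivative.eval y := by
  have hs : Q.Splits := Splits.of_splits_map_of_injective (algebraMap ℝ ℂ).injective
    (IsAlgClosed.splits _) fun a ha => by
      obtain ⟨y, -, rfl⟩ := h a (by simpa [aeval_def, eval_map] using isRoot_of_mem_roots ha)
      exact ⟨y, rfl⟩
  rw [hs.eq_prod_roots]
  generalize Q.leadingCoeff = a, Q.roots = s
  induction s using Multiset.induction_on with
  | empty => simp
  | cons r s ih =>
    rw [Multiset.map_cons, Multiset.prod_cons, mul_left_comm]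
    generalize C a * (s.map _).prod = P at *
    simp only [derivative_mul, derivative_sub, derivative_X, derivative_C, sub_zero, one_mul,
      derivative_add, eval_add, eval_mul, eval_sub, eval_X, eval_C]
    nlinarith [mul_nonneg (sq_nonneg (y - r)) ih, sq_nonneg (P.eval y)]

lemma core (Z : Finset ℝ) (hZ : ∀ z ∈ Z, |z| < 1) {y : ℝ} (hy : ∀ z ∈ Z, y < z) :
    ∃ q : ℝ[X], q.degree = Z.card ∧ ∃ δ > 0, (∀ z ∈ Z, ∀ z' ∈ Z, z < z' → z + δ < z') ∧
      (∀ z ∈ Z, RR (C (z + δ - y)⁻¹ * ((X - C y) * ∏ z ∈ Z, (X - C z)) + q)) ∧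
      ∀ z ∈ Z, ¬RR (C (z - y)⁻¹ * ((X - C y) * ∏ z ∈ Z, (X - C z)) + q) := by
  classical
  obtain ⟨δ, ⟨h1, h2⟩, h4⟩ := ((small Z hZ).and self_mem_nhdsWithin).exists
  replace h4 : 0 < δ := h4
  set P := ∏ z ∈ Z, (X - C z) with hP
  have d1 : P.degree = Z.card := by
    rw [hP, degree_prod]
    simp
  have d2 : P.derivative.degree < Z.card :=
    d1 ▸ degree_derivative_lt (by rintro h; simp [h] at d1)
  have good : ∀ᶠ ε in 𝓝 (0 : ℝ), ∀ z ∈ Z,
      RR (C (z + δ - y)⁻¹ * ((X - C y) * P) + (C ε * P.derivative - P)) := by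
    refine (eventually_all_finset _).2 fun z hz => ?_
    have n1 : z + δ ∉ Z := fun h => by linarith [h2 z hz _ h (by linarith)]
    have n2 : z + δ - y ≠ 0 := by linarith [hy z hz]
    have := persist (insert (z + δ) Z) (by
      simp only [Finset.mem_insert]
      rintro u (rfl | hu)
      · exact abs_lt.2 ⟨by linarith [neg_abs_le z, h1 z hz], by linarith [le_abs_self z, h1 z hz]⟩
      · exact hZ u hu) (inv_ne_zero n2) P.derivative (d2.trans (by
        rw [Finset.card_insert_of_notMem n1]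
        exact_mod_cast Nat.lt_succ_self _))
    refine this.mono fun ε hε => ?_
    rw [Finset.prod_insert n1, ← hP] at hε
    have e : C (z + δ - y)⁻¹ * (C (z + δ) - C y) = 1 := by
      rw [← C_sub, ← C_mul, inv_mul_cancel₀ n2, C_1]
    refine (congrArg RR ?_).mpr hε
    linear_combination P * e
  have bad : ∀ᶠ ε in 𝓝[>] (0 : ℝ), ∀ z ∈ Z,
      ¬RR (C (z - y)⁻¹ * ((X - C y) * P) + (C ε * P.derivative - P)) := by
    refine (eventually_all_finset _).2 fun z hz => ?_
    have n2 : 0 < z - y := by linarith [hy z hz]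
    have p0 : P.eval z = 0 := by
      rw [hP, eval_prod]
      exact Finset.prod_eq_zero hz (by simp)
    have p1 : P.derivative.eval z ≠ 0 := by
      rw [hP, ← Finset.mul_prod_erase _ _ hz]
      simp only [derivative_mul, derivative_sub, derivative_X, derivative_C, sub_zero, one_mul,
        eval_add, eval_mul, eval_sub, eval_X, eval_C, sub_self, zero_mul, add_zero, eval_prod,
        Finset.prod_ne_zero_iff, Finset.mem_erase]
      exact fun u hu => sub_ne_zero.2 hu.1.symm
    have : ∀ᶠ ε in 𝓝 (0 : ℝ), ε * (P.derivative.derivative.eval z ^ 2 - P.derivative.eval z *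
        P.derivative.derivative.derivative.eval z) < 2 * (z - y)⁻¹ * P.derivative.eval z ^ 2 :=
      ContinuousAt.eventually_lt (by fun_prop) (by fun_prop) (by rw [zero_mul]; positivity)
    filter_upwards [this.filter_mono nhdsWithin_le_nhds, self_mem_nhdsWithin] with ε e1 e2 h
    have := lag h z
    have e3 : (z - y)⁻¹ * (z - y) = 1 := inv_mul_cancel₀ n2.ne'
    simp only [derivative_mul, derivative_sub, derivative_X, derivative_C, sub_zero, one_mul,
      derivative_add, eval_add, eval_mul, eval_sub, eval_X, eval_C, p0, zero_mul, zero_add,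
      mul_zero, mul_add, ← mul_assoc, e3, eval_one, mul_one] at this
    nlinarith [mul_lt_mul_of_pos_left e1 (show 0 < ε from e2)]
  obtain ⟨ε, g, b⟩ := ((good.filter_mono nhdsWithin_le_nhds).and bad).exists
  refine ⟨_, ?_, δ, h4, fun z hz z' hz' h => by linarith [h2 z hz z' hz' h], g, b⟩
  rw [degree_sub_eq_right_of_degree_lt, d1]
  rw [d1, C_mul']
  exact (degree_smul_le _ _).trans_lt d2

/-- The polynomial `x ^ m Q ((x + 1 / x) / 2)`. -/
noncomputable def H (m : ℕ) (Q : ℝ[X]) : ℝ[X] :=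
  ∑ k ∈ Finset.range (m + 1), C (Q.coeff k / 2 ^ k) * (X ^ 2 + 1) ^ k * X ^ (m - k)

lemma H_eval {K : Type} [Field K] [Algebra ℝ K] {m : ℕ} {Q : ℝ[X]} (h : Q.natDegree ≤ m) {x : K}
    (hx : x ≠ 0) : aeval x (H m Q) = x ^ m * aeval ((x + x⁻¹) / 2) Q := by
  have : CharZero K := charZero_of_injective_algebraMap (algebraMap ℝ K).injective
  rw [aeval_eq_sum_range' (Nat.lt_succ_of_le h), H, map_sum, Finset.mul_sum]
  refine Finset.sum_congr rfl fun k hk => ?_
  obtain ⟨l, rfl⟩ := Nat.exists_eq_add_of_le (Nat.lt_succ_iff.1 (Finset.mem_range.1 hk))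
  have e : (x + x⁻¹) / 2 = (x ^ 2 + 1) / (2 * x) := by field_simp
  simp only [map_mul, map_pow, map_add, aeval_X, aeval_C, map_one, Algebra.smul_def, map_div₀,
    map_ofNat, Nat.add_sub_cancel_left, e, div_pow, mul_pow, pow_add]
  field_simp

lemma H_deg (m : ℕ) (Q : ℝ[X]) : (H m Q).natDegree ≤ 2 * m :=
  natDegree_sum_le_of_forall_le _ _ fun k hk => by
    have h1 : ((X ^ 2 + 1 : ℝ[X]) ^ k).natDegree ≤ k * 2 :=
      natDegree_pow_le_of_le _ (by compute_degree)
    have h2 := Finset.mem_range.1 hk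
    refine natDegree_mul_le.trans ?_
    rw [natDegree_X_pow]
    have := (natDegree_C_mul_le (Q.coeff k / 2 ^ k) _).trans h1
    omega

lemma H_symm {m : ℕ} {Q : ℝ[X]} (h : Q.natDegree ≤ m) {j : ℕ} (hj : j ≤ 2 * m) :
    (H m Q).coeff j = (H m Q).coeff (2 * m - j) := by
  have : reflect (2 * m) (H m Q) = H m Q := by
    refine eq_of_infinite_eval_eq _ _ ((Set.finite_singleton (0 : ℝ)).infinite_compl.mono
      fun x (hx : x ≠ 0) => ?_)
    let _ := invertibleOfNonzero (inv_ne_zero hx)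
    have e := eval₂_reflect_mul_pow (RingHom.id ℝ) x⁻¹ (2 * m) _ (H_deg m Q)
    have e1 := H_eval h hx
    have e2 := H_eval h (inv_ne_zero hx)
    simp only [invOf_eq_inv, inv_inv, eval₂_id, coe_aeval_eq_eval] at e e1 e2
    rw [e2, add_comm, two_mul, pow_add, ← mul_assoc, mul_comm, mul_right_inj' (by positivity)] at e
    rw [Set.mem_ofPred_eq, e1, ← e, inv_pow, two_mul]
    field_simp
  conv_lhs => rw [← this, coeff_reflect, revAt_le hj]

lemma trim {m : ℕ} {Q : ℝ[X]} (h : Q.natDegree < m) (h0 : Q ≠ 0) :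
    Trim ((H m Q).map (algebraMap ℝ ℂ)) (2 * m) := by
  have inj := (algebraMap ℝ ℂ).injective
  have n0 : H m Q ≠ 0 := fun c => h0 (eq_zero_of_infinite_isRoot _ ((Set.Ioi_infinite (1 : ℝ)).mono
    fun y (hy : 1 < y) => by
      have s1 : √(y ^ 2 - 1) ^ 2 = y ^ 2 - 1 := Real.sq_sqrt (by nlinarith)
      have x0 : 0 < y + √(y ^ 2 - 1) := by positivity
      have := H_eval h.le x0.ne'
      rw [c, map_zero, inv_eq_of_mul_eq_one_right (b := y - √(y ^ 2 - 1)) (by nlinarith)] at this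
      simpa [x0.ne'] using this))
  have c0 : (H m Q).coeff 0 = 0 := by
    rw [coeff_zero_eq_eval_zero, H, eval_finsetSum, Finset.sum_range_succ,
      coeff_eq_zero_of_natDegree_lt h]
    simpa using Finset.sum_eq_zero fun k hk => by
      simp [Nat.sub_ne_zero_of_lt (Finset.mem_range.1 hk)]
  have d := H_deg m Q
  have t := (H m Q).natTrailingDegree_le_natDegree
  have l : (H m Q).coeff (2 * m - (H m Q).natDegree) ≠ 0 := by
    rw [← H_symm h.le d]
    exact leadingCoeff_ne_zero.2 n0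
  have l1 := natTrailingDegree_le_of_ne_zero l
  have l2 := le_natDegree_of_ne_zero ((H_symm h.le (t.trans d)).symm.trans_ne
    (trailingCoeff_nonzero_iff_nonzero.2 n0))
  have tr : ((H m Q).map (algebraMap ℝ ℂ)).natTrailingDegree = (H m Q).natTrailingDegree := by
    simp only [natTrailingDegree, trailingDegree, support_map_of_injective _ inj]
  refine ⟨map_ne_zero n0, ?_, fun j hj => by simp [← H_symm h.le hj], ?_⟩
  · rw [tr, natDegree_map]
    omega
  · rw [natDegree_map]
    refine lt_of_le_of_ne d fun c => l ?_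
    rw [c, Nat.sub_self, c0]

lemma mem_S {m : ℕ} {Q : ℝ[X]} (h : Q.natDegree < m) {α : ℝ} (hα : 0 < α) :
    α ∈ S ((H m Q).map (algebraMap ℝ ℂ)) (2 * m) ↔ RR (C (2 * α) * Chebyshev.T ℝ m + Q) := by
  have key : ∀ x : ℂ, x ≠ 0 → (C (α : ℂ) * (X ^ (2 * m) + 1) + (H m Q).map (algebraMap ℝ ℂ)).eval x =
      x ^ m * aeval ((x + x⁻¹) / 2) (C (2 * α) * Chebyshev.T ℝ m + Q) := fun x hx => by
    have e := Chebyshev.T_complex_cosh (Complex.log x) m
    simp only [Complex.cosh, Complex.exp_neg, Int.cast_natCast, Complex.exp_nat_mul,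
      Complex.exp_log hx] at e
    rw [eval_add, eval_map_algebraMap, H_eval h.le hx, map_add, map_mul, Chebyshev.aeval_T, e]
    simp
    field_simp
    ring
  refine ⟨fun hS w hw => ?_, fun hR => ⟨hα, fun x hx => ?_⟩⟩
  · obtain ⟨u, hu⟩ := IsAlgClosed.exists_pow_nat_eq (w ^ 2 - 1) two_pos
    have e : (w + u) * (w - u) = 1 := by linear_combination -hu
    have e1 : (w + u + (w + u)⁻¹) / 2 = w := by rw [inv_eq_of_mul_eq_one_right e]; ring
    have n1 := hS.2 (w + u) (by rw [IsRoot, key _ (left_ne_zero_of_mul_eq_one e), e1, hw, mul_zero])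
    refine ⟨(w + u).re, n1 ▸ Complex.abs_re_le_norm _, ?_⟩
    rw [Complex.re_eq_add_conj, ← Complex.inv_eq_conj n1, e1]
  · have x0 : x ≠ 0 := by
      rintro rfl
      have t := trim h
      by_cases h0 : Q = 0
      · simp [h0, H, hα.ne', (show m ≠ 0 by omega)] at hx
      have := (t h0).2.2.1 0 (by omega)
      rw [Nat.sub_zero, coeff_eq_zero_of_natDegree_lt (t h0).2.2.2, map_zero,
        coeff_zero_eq_eval_zero] at this
      simp only [IsRoot, eval_add, this] at hx
      simp [hα.ne', (show m ≠ 0 by omega)] at hx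
    rw [IsRoot, key x x0] at hx
    obtain ⟨y, y1, y2⟩ := hR _ ((mul_eq_zero.1 hx).resolve_left (pow_ne_zero _ x0))
    have e : x * x - 2 * y * x + 1 = 0 := by
      rw [← y2]
      field_simp
      ring
    have e1 := congrArg Complex.re e
    have e2 := congrArg Complex.im e
    simp at e1 e2
    have y3 := abs_le.1 y1
    have : x.re * x.re + x.im * x.im = 1 := by
      rcases eq_or_ne x.im 0 with c | c
      · rw [c] at e1 ⊢
        have y4 : y * y ≤ 1 := by nlinarith
        have : x.re = y := by nlinarith [sq_nonneg (x.re - y)]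
        nlinarith
      · have : x.re = y := mul_right_cancel₀ c (by linarith)
        rw [this] at e1 ⊢
        linarith
    rw [Complex.norm_def, Complex.normSq_apply, this, Real.sqrt_one]

theorem result (k : ℕ) : ∃ (p : ℂ[X]) (n : ℕ), Trim p n ∧ (k : ℕ∞) ≤ comps (S p n) := by
  classical
  obtain ⟨W, w1, w2⟩ : ∃ W : Finset ℝ, (Chebyshev.T ℝ (k + 1 : ℕ)).roots = W.val ∧
      ∀ z ∈ W, |z| ≤ 1 := ⟨_, Chebyshev.roots_T_real _, fun z hz => by
    obtain ⟨j, -, rfl⟩ := Finset.mem_image.1 hz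
    exact Real.abs_cos_le_one _⟩
  have w3 : W.card = k + 1 := by
    have := congrArg Multiset.card w1
    rw [Chebyshev.roots_T_real, Finset.card_val, Finset.card_image_of_injOn
      ((Finset.range _).nodup_map_iff_injOn.mp (Chebyshev.roots_T_real_nodup _))] at this
    simpa using this.symm
  have w4 : ∀ z ∈ W, |z| < 1 := fun z hz => lt_of_le_of_ne (w2 z hz) fun c => by
    have : (Chebyshev.T ℝ (k + 1 : ℕ)).eval z = 0 := isRoot_of_mem_roots (w1 ▸ hz)
    rcases (abs_eq zero_le_one).1 c with rfl | rfl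
    · rw [Chebyshev.T_eval_one] at this
      exact one_ne_zero this
    · rw [Chebyshev.T_eval_neg_one] at this
      exact Units.ne_zero _ (by exact_mod_cast this)
  obtain ⟨y, hy, hm⟩ := W.exists_min_image id (Finset.card_pos.1 (by omega))
  have hT := C_leadingCoeff_mul_prod_multiset_X_sub_C (p := Chebyshev.T ℝ (k + 1 : ℕ))
    (by rw [w1, Chebyshev.natDegree_T]; exact w3)
  have c0 : (Chebyshev.T ℝ (k + 1 : ℕ)).leadingCoeff ≠ 0 := by
    rw [Chebyshev.leadingCoeff_T]
    positivity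
  generalize (Chebyshev.T ℝ (k + 1 : ℕ)).leadingCoeff = c at hT c0
  rw [w1, ← Finset.prod_eq_multiset_prod, ← Finset.mul_prod_erase _ _ hy] at hT
  have lt : ∀ z ∈ W.erase y, y < z := fun z hz =>
    lt_of_le_of_ne (hm z (Finset.mem_of_mem_erase hz)) (Finset.ne_of_mem_erase hz).symm
  obtain ⟨q, q1, δ, δ0, q2, q3, q4⟩ := core (W.erase y)
    (fun z hz => w4 z (Finset.mem_of_mem_erase hz)) lt
  have cd : (W.erase y).card = k := by rw [Finset.card_erase_of_mem hy, w3]; rfl
  have q0 : C (2 * c) * q ≠ 0 := mul_ne_zero (by simpa using c0) (by rintro rfl; simp at q1)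
  have qd : (C (2 * c) * q).natDegree < k + 1 :=
    Nat.lt_succ_of_le ((natDegree_C_mul_le _ _).trans (natDegree_le_of_degree_le (cd ▸ q1.le)))
  refine ⟨_, _, trim qd q0, ?_⟩
  set A := S ((H (k + 1) (C (2 * c) * q)).map (algebraMap ℝ ℂ)) (2 * (k + 1))
  have mem : ∀ α > 0, α ∈ A ↔ RR (C α * ((X - C y) * ∏ z ∈ W.erase y, (X - C z)) + q) :=
    fun α hα => by
      rw [mem_S qd hα, ← hT, show ∀ P : ℝ[X], C (2 * α) * (C c * P) + C (2 * c) * q =
        C (2 * c) * (C α * P + q) from fun P => by simp only [map_mul]; ring]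
      simp [RR, c0, -map_add]
  have p1 : ∀ z ∈ W.erase y, 0 < z - y := fun z hz => sub_pos.2 (lt z hz)
  have p2 : ∀ z ∈ W.erase y, 0 < z + δ - y := fun z hz => by linarith [p1 z hz]
  have g : ∀ z ∈ W.erase y, (z + δ - y)⁻¹ ∈ A := fun z hz =>
    (mem _ (inv_pos.2 (p2 z hz))).2 (q3 z hz)
  have sep : ∀ z ∈ W.erase y, ∀ z' ∈ W.erase y, z < z' →
      connectedComponentIn A (z + δ - y)⁻¹ ≠ connectedComponentIn A (z' + δ - y)⁻¹ :=
    fun z hz z' hz' h e => q4 z' hz' ((mem _ (inv_pos.2 (p1 z' hz'))).1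
      (connectedComponentIn_subset _ _ (isPreconnected_connectedComponentIn.ordConnected.out
        (mem_connectedComponentIn (g z' hz')) (e ▸ mem_connectedComponentIn (g z hz))
        ⟨inv_anti₀ (p1 z' hz') (by linarith),
          inv_anti₀ (p2 z hz) (by linarith [q2 z hz z' hz' h])⟩)))
  rw [← cd, ← Set.encard_coe_eq_coe_finsetCard]
  refine Set.encard_le_encard_of_injOn (f := fun z => connectedComponentIn A (z + δ - y)⁻¹)
    (fun z hz => ⟨_, g z hz, rfl⟩) fun z hz z' hz' e => ?_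
  rcases lt_trichotomy z z' with h | h | h
  · exact absurd e (sep z hz z' hz' h)
  · exact h
  · exact absurd e.symm (sep z' hz' z hz h)

end Pool.Agent.Results.MP_9de7c4_an.Comp
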